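import Pool.Agent.W584.RA.PIGa

/-! PIG: few primes for every set, every scale and every exponent. -/

set_option autoImplicit false

namespace Pool.Agent.W584.RA

open Finset Pool.Agent.W223.RA

lemma near_y {S : Finset ℕ} {l : ℝ} {a₁ b₁ a₂ b₂ : ℕ} {κ : Fin 3}
    (hS : ∀ q ∈ S, q.Prime) (hN : Near S l a₁ b₁ a₂ b₂)
    (h1 : ∀ q : ℕ, q.Prime → q ∣ yk κ a₁ b₁ →
      (yk κ a₁ b₁).factorization q = (N3 a₁ b₁).factorization q)
    (h2 : ∀ q : ℕ, q.Prime → q ∣ yk κ a₂ b₂ →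
      (yk κ a₂ b₂).factorization q = (N3 a₂ b₂).factorization q)
    (q : ℕ) (hq : q ∈ S) (hd : q ∣ yk κ a₁ b₁) :
    ((yk κ a₁ b₁).factorization q : ℝ) * Real.log q ≤
      ((yk κ a₂ b₂).factorization q : ℝ) * Real.log q + l / (32 * (S.card + 1)) := by
  have hd2 := (near_dvd hN hq κ).1 hd
  have e1 := h1 q (hS q hq) hd
  have e2 := h2 q (hS q hq) hd2
  rw [e1, e2]
  have h4 := (hN q hq).2.2.2
  have h5 := (le_abs_self _).trans h4
  rw [sub_mul] at h5
  linarith

lemma gcd_part {n : ℕ} {S : Finset ℕ} {l : ℝ} (hn0 : 0 < n) (hS : ∀ q ∈ S, q.Prime) (hl0 : 0 < l)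
    (y : Fin n → ℕ) (hy0 : ∀ i, y i ≠ 0) (hyS : ∀ i, (y i).primeFactors ⊆ S)
    (hNy : ∀ i j : Fin n, ∀ q ∈ S, q ∣ y i → ((y i).factorization q : ℝ) * Real.log q ≤
      ((y j).factorization q : ℝ) * Real.log q + l / (32 * (S.card + 1))) :
    ∃ G : ℕ, 0 < G ∧ (∀ i, G ∣ y i) ∧ ∀ i, Real.log (y i : ℝ) - l / 32 ≤ Real.log (G : ℝ) := by
  have hne : Nonempty (Fin n) := ⟨⟨0, hn0⟩⟩
  choose j hj using fun q : ℕ => Finite.exists_min (fun i : Fin n => (y i).factorization q)
  refine ⟨∏ q ∈ S, q ^ (y (j q)).factorization q, Finset.prod_pos (fun q hq => pow_pos (hS q hq).pos _),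
    ?_, ?_⟩
  · intro i
    conv_rhs => rw [eq_prod (hy0 i) (hyS i)]
    exact Finset.prod_dvd_prod_of_dvd _ _ (fun q _ => pow_dvd_pow q (hj q i))
  · intro i0
    have hpos : 0 ≤ l / (32 * ((S.card : ℝ) + 1)) := by positivity
    have hterm : ∀ q ∈ S, ((y i0).factorization q : ℝ) * Real.log q ≤
        ((y (j q)).factorization q : ℝ) * Real.log q + l / (32 * (S.card + 1)) := by
      intro q hq
      have hlq : 0 ≤ Real.log (q : ℝ) := Real.log_nonneg (by exact_mod_cast (hS q hq).one_lt.le)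
      by_cases hd : q ∣ y i0
      · exact hNy i0 (j q) q hq hd
      · rw [Nat.factorization_eq_zero_of_not_dvd hd]
        have : 0 ≤ ((y (j q)).factorization q : ℝ) * Real.log q := by positivity
        push_cast
        linarith
    have e1 : Real.log ((∏ q ∈ S, q ^ (y (j q)).factorization q : ℕ) : ℝ) =
        ∑ q ∈ S, ((y (j q)).factorization q : ℝ) * Real.log q := by
      push_cast
      rw [Real.log_prod]
      · exact Finset.sum_congr rfl (fun q _ => by rw [Real.log_pow])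
      · intro q hq
        have : (0 : ℝ) < q := by exact_mod_cast (hS q hq).pos
        positivity
    rw [e1, log_eq_sum (hy0 i0) (hyS i0) hS]
    have h1 := Finset.sum_le_sum hterm
    rw [Finset.sum_add_distrib, Finset.sum_const, nsmul_eq_mul] at h1
    have h2 : (S.card : ℝ) * (l / (32 * ((S.card : ℝ) + 1))) ≤ l / 32 := by
      have h3 : (0 : ℝ) ≤ S.card := Nat.cast_nonneg _
      rw [← mul_div_assoc, div_le_div_iff₀ (by positivity) (by norm_num)]
      nlinarith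
    linarith

lemma mem_bounds {S : Finset ℕ} {l : ℝ} {e K : ℕ} (hl0 : 1000 ≤ l) (hK2 : 2 * l < (K : ℝ) + 1)
    (p a b : ℕ) (hT : Trip a b) (hsc : Scale l a b) (hp : p.Prime)
    (hN : (N3 a b).primeFactors = insert p S) (he : (N3 a b).factorization p = e) :
    1 ≤ e ∧ (e : ℝ) ≤ 5 * l ∧ a + b ≤ 2 ^ K := by
  have l2a := Real.log_two_gt_d9
  have l2b := Real.log_two_lt_d9
  have hab0 : 0 < a + b := by have := hT.1; omega
  have hlogab : Real.log ((a + b : ℕ) : ℝ) ≤ 33 / 32 * l := hsc.2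
  have hN0 : N3 a b ≠ 0 := by
    have h1 := hT.1
    have h2 := hT.2.1
    unfold N3
    exact mul_ne_zero (mul_ne_zero (by omega) (by omega)) (by omega)
  have hpN : p ∣ N3 a b := by
    have : p ∈ (N3 a b).primeFactors := by rw [hN]; exact Finset.mem_insert_self _ _
    exact (Nat.mem_primeFactors.1 this).2.1
  have he1 : 1 ≤ e := by
    rw [← he]; exact hp.factorization_pos_of_dvd hN0 hpN
  refine ⟨he1, ?_, ?_⟩
  · have h1 : p ^ e ≤ N3 a b := by rw [← he]; exact Nat.ordProj_le p hN0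
    have h2 : 2 ^ e ≤ p ^ e := Nat.pow_le_pow_left hp.two_le _
    have h3 : N3 a b ≤ (a + b) ^ 3 := by
      unfold N3
      have e3 : (a + b) ^ 3 = (a + b) * (a + b) * (a + b) := by ring
      rw [e3]
      exact Nat.mul_le_mul_right _ (Nat.mul_le_mul (by omega) (by omega))
    have h4 : 2 ^ e ≤ (a + b) ^ 3 := h2.trans (h1.trans h3)
    have h5 : ((2 : ℝ)) ^ e ≤ (((a + b : ℕ) : ℝ)) ^ 3 := by exact_mod_cast h4
    have h6 := Real.log_le_log (by positivity) h5
    rw [Real.log_pow, Real.log_pow] at h6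
    push_cast at h6
    have h7 : (e : ℝ) * Real.log 2 ≤ 3 * (33 / 32 * l) := by
      have : Real.log ((a : ℝ) + (b : ℝ)) ≤ 33 / 32 * l := by
        have := hlogab
        push_cast at this
        exact this
      linarith
    by_contra hc
    push Not at hc
    have : 5 * l * Real.log 2 ≤ (e : ℝ) * Real.log 2 :=
      mul_le_mul_of_nonneg_right hc.le (by linarith)
    nlinarith
  · have h1 : Real.log ((a + b : ℕ) : ℝ) ≤ Real.log ((2 : ℝ) ^ K) := by
      rw [Real.log_pow]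
      nlinarith
    have h2 : ((a + b : ℕ) : ℝ) ≤ (2 : ℝ) ^ K :=
      (Real.log_le_log_iff (by exact_mod_cast hab0) (by positivity)).1 h1
    exact_mod_cast h2

lemma pigeon {X l : ℝ} {S : Finset ℕ} {e n : ℕ} (hCEL : StmtCEL) (hS : ∀ q ∈ S, q.Prime)
    (hl0 : 0 < l) (hfin : (PigSet X S l e).Finite)
    (hcard : 2 ^ (105 * (S.card + 1)) * 3 * n < (PigSet X S l e).ncard) :
    ∃ (k0 : Fin 3) (p a b : Fin n → ℕ), Function.Injective p ∧
      (∀ i, (p i).Prime ∧ p i ∉ S ∧ (p i : ℝ) ≤ X) ∧ (∀ i, Trip (a i) (b i)) ∧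
      (∀ i, Scale l (a i) (b i)) ∧ (∀ i, (N3 (a i) (b i)).primeFactors = insert (p i) S) ∧
      (∀ i, (N3 (a i) (b i)).factorization (p i) = e) ∧ (∀ i, p i ∣ uk k0 (a i) (b i)) ∧
      ∀ i j, Near S l (a i) (b i) (a j) (b j) := by
  classical
  have hex : ∀ p : ℕ, ∃ ab : ℕ × ℕ, p ∈ PigSet X S l e → (Trip ab.1 ab.2 ∧ Scale l ab.1 ab.2 ∧
      (N3 ab.1 ab.2).primeFactors = insert p S ∧ (N3 ab.1 ab.2).factorization p = e) := by
    intro p
    by_cases hp : p ∈ PigSet X S l e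
    · obtain ⟨_, _, _, a, b, h1, h2, h3, h4⟩ := hp
      exact ⟨(a, b), fun _ => ⟨h1, h2, h3, h4⟩⟩
    · exact ⟨(0, 0), fun h => absurd h hp⟩
  choose ab hab using hex
  have hkex : ∀ p : ℕ, ∃ κ : Fin 3, p ∈ PigSet X S l e → p ∣ uk κ (ab p).1 (ab p).2 := by
    intro p
    by_cases hp : p ∈ PigSet X S l e
    · obtain ⟨_, _, h3, _⟩ := hab p hp
      have hpN : p ∣ N3 (ab p).1 (ab p).2 := by
        have : p ∈ (N3 (ab p).1 (ab p).2).primeFactors := by rw [h3]; exact Finset.mem_insert_self _ _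
        exact (Nat.mem_primeFactors.1 this).2.1
      unfold N3 at hpN
      rcases (hp.1.dvd_mul).1 hpN with h | h
      · rcases (hp.1.dvd_mul).1 h with h | h
        · exact ⟨0, fun _ => by simpa [uk] using h⟩
        · exact ⟨1, fun _ => by simpa [uk] using h⟩
      · exact ⟨2, fun _ => by simpa [uk] using h⟩
    · exact ⟨0, fun h => absurd h hp⟩
  choose kap hkap using hkex
  obtain ⟨F, hF⟩ := hCEL S l hS hl0
  have hcard2 : (Finset.univ : Finset (Fin (2 ^ (105 * (S.card + 1))) × Fin 3)).card * n <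
      hfin.toFinset.card := by
    have h1 : (PigSet X S l e).ncard = hfin.toFinset.card := Set.ncard_eq_toFinset_card _ hfin
    rw [← h1, Finset.card_univ, Fintype.card_prod, Fintype.card_fin, Fintype.card_fin]
    exact hcard
  obtain ⟨c, _, hc⟩ := Finset.exists_lt_card_fiber_of_mul_lt_card_of_maps_to
    (s := hfin.toFinset) (f := fun p => (F (ab p), kap p)) (fun _ _ => Finset.mem_univ _) hcard2
  obtain ⟨t, ht, htc⟩ := Finset.exists_subset_card_eq hc.le
  let io : Fin n ≃ t := (Finset.equivFinOfCardEq htc).symm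
  have hpP : ∀ i : Fin n, (io i : ℕ) ∈ PigSet X S l e ∧ (F (ab (io i)), kap (io i)) = c := by
    intro i
    have := Finset.mem_filter.1 (ht (io i).2)
    exact ⟨hfin.mem_toFinset.1 this.1, this.2⟩
  refine ⟨c.2, fun i => (io i : ℕ), fun i => (ab (io i)).1, fun i => (ab (io i)).2,
    fun i j h => io.injective (Subtype.ext h), fun i => ⟨(hpP i).1.1, (hpP i).1.2.1, (hpP i).1.2.2.1⟩,
    fun i => (hab _ (hpP i).1).1, fun i => (hab _ (hpP i).1).2.1,
    fun i => (hab _ (hpP i).1).2.2.1, fun i => (hab _ (hpP i).1).2.2.2, ?_, ?_⟩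
  · intro i
    have h1 := hkap _ (hpP i).1
    have h2 : kap (io i) = c.2 := congrArg Prod.snd (hpP i).2
    rw [h2] at h1
    exact h1
  · intro i j
    refine hF _ _ _ _ (hab _ (hpP i).1).1 (hab _ (hpP j).1).1 (hab _ (hpP i).1).2.1
      (hab _ (hpP j).1).2.1 ?_
    have h1 : F (ab (io i)) = c.1 := congrArg Prod.fst (hpP i).2
    have h2 : F (ab (io j)) = c.1 := congrArg Prod.fst (hpP j).2
    show F (ab (io i)) = F (ab (io j))
    rw [h1, h2]

theorem tPIG (hCEL : StmtCEL) (hPG2 : StmtPG2) : StmtPIG := by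
  classical
  refine ⟨Real.exp (Real.exp 400), ?_, ?_⟩
  · have h1 := Real.add_one_le_exp (Real.exp 400)
    have h2 := Real.add_one_le_exp (400 : ℝ)
    linarith
  intro X hX S l e hS hSX h94 hlX
  have hX0 : 0 < X := (Real.exp_pos _).trans_le hX
  obtain ⟨L, hLdef⟩ : ∃ L, L = Real.log X := ⟨_, rfl⟩
  have hL : Real.exp 400 ≤ L := by
    rw [hLdef, Real.le_log_iff_exp_le hX0]; exact hX
  rw [← hLdef] at h94 ⊢
  obtain ⟨a1, a2, a3, a4, a5⟩ := ana hL h94
  have hL0 : 0 < L := by linarith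
  have hl0 : 0 < l := by linarith
  have hlL : Real.log l ≤ L := by rw [hLdef]; exact Real.log_le_log hl0 hlX
  by_contra hcon
  push Not at hcon
  have hfin : (PigSet X S l e).Finite := by
    by_contra hinf
    rw [Set.Infinite.ncard hinf] at hcon
    have : (0 : ℝ) < 2 ^ (120 * (S.card + 1)) * L ^ 3 := by positivity
    push_cast at hcon
    linarith
  obtain ⟨n, hn⟩ : ∃ n, n = ⌈20 * L * Real.log l⌉₊ := ⟨_, rfl⟩
  obtain ⟨K, hK⟩ : ∃ K, K = ⌊2 * l⌋₊ := ⟨_, rfl⟩
  obtain ⟨Y, hY⟩ : ∃ Y, Y = ⌊X⌋₊ := ⟨_, rfl⟩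
  obtain ⟨m, hm⟩ : ∃ m, m = ∏ q ∈ S, q := ⟨_, rfl⟩
  have hLl : 0 < 20 * L * Real.log l := by positivity
  have hn1 : 20 * L * Real.log l ≤ n := by rw [hn]; exact Nat.le_ceil _
  have hn2 : (n : ℝ) ≤ 20 * L * Real.log l + 1 := by rw [hn]; exact (Nat.ceil_lt_add_one hLl.le).le
  have hn0 : 0 < n := by rw [hn]; exact Nat.ceil_pos.2 hLl
  have hK1 : (K : ℝ) ≤ 2 * l := by rw [hK]; exact Nat.floor_le (by linarith)
  have hK2 : 2 * l < (K : ℝ) + 1 := by rw [hK]; exact Nat.lt_floor_add_one _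
  have l2a := Real.log_two_gt_d9
  have l2b := Real.log_two_lt_d9
  have hmpos : 0 < m := by rw [hm]; exact Finset.prod_pos (fun q hq => (hS q hq).pos)
  have hmpf : m.primeFactors = S := by
    rw [hm]; exact Nat.primeFactors_prod hS
  have hmX : (m : ℝ) ≤ X := by rw [hm]; exact hSX
  have hmL : Real.log m ≤ L := by
    rw [hLdef]; exact Real.log_le_log (by exact_mod_cast hmpos) hmX
  have hsq : Squarefree m := by
    rw [hm]
    refine Finset.squarefree_prod_of_pairwise_isCoprime ?_ (fun q hq => (hS q hq).squarefree)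
    intro q hq r hr hqr
    exact Nat.coprime_iff_isRelPrime.1 ((Nat.coprime_primes (hS q hq) (hS r hr)).2 hqr)
  have hcard : 2 ^ (105 * (S.card + 1)) * 3 * n < (PigSet X S l e).ncard := by
    have h2 : ((2 ^ (105 * (S.card + 1)) * 3 * n : ℕ) : ℝ) < ((PigSet X S l e).ncard : ℝ) := by
      refine lt_of_le_of_lt ?_ hcon
      push_cast
      have h3 : (n : ℝ) ≤ 21 * L ^ 2 := by nlinarith
      have h4 : (2 : ℝ) ^ (120 * (S.card + 1)) =
          2 ^ (105 * (S.card + 1)) * 2 ^ (15 * (S.card + 1)) := by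
        rw [← pow_add]; congr 1; ring
      have h5 : (2 : ℝ) ^ 15 ≤ 2 ^ (15 * (S.card + 1)) :=
        pow_le_pow_right₀ (by norm_num) (by omega)
      rw [h4, mul_assoc, mul_assoc]
      refine mul_le_mul_of_nonneg_left ?_ (by positivity)
      calc (3 : ℝ) * n ≤ 3 * (21 * L ^ 2) := by linarith
        _ ≤ 2 ^ 15 * L ^ 3 := by
            have : L ^ 3 = L ^ 2 * L := by ring
            rw [this]
            have h6 : 0 < L ^ 2 := by positivity
            nlinarith
        _ ≤ 2 ^ (15 * (S.card + 1)) * L ^ 3 :=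
            mul_le_mul_of_nonneg_right h5 (by positivity)
    exact_mod_cast h2
  obtain ⟨k0, p, a, b, hinj, hpP, hT, hSc, hNp, hNe, hku, hNear⟩ := pigeon hCEL hS hl0 hfin hcard
  have hfacts := fun i => facts (hT i) (hpP i).1 (hNp i) (hNe i) k0 (hku i)
  have hmemi := fun i => mem_bounds a4 hK2 (p i) (a i) (b i) (hT i) (hSc i) (hpP i).1 (hNp i) (hNe i)
  choose x hxeq hx0 hxle hxS hxy using fun i => (hfacts i).2.2.2.2.2.2.2
  obtain ⟨G, hGpos, hGy, hGlog⟩ := gcd_part hn0 hS hl0 (fun i => yk k0 (a i) (b i))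
    (fun i => (hfacts i).2.2.2.1) (fun i => (hfacts i).1)
    (fun i j q hq hd => near_y hS (hNear i j) (hfacts i).2.2.1 (hfacts j).2.2.1 q hq hd)
  obtain ⟨i0⟩ : Nonempty (Fin n) := ⟨⟨0, hn0⟩⟩
  have hy0 : yk k0 (a i0) (b i0) ≠ 0 := (hfacts i0).2.2.2.1
  have hy2 : a i0 + b i0 ≤ 2 * yk k0 (a i0) (b i0) := (hfacts i0).2.2.2.2.2.2.1
  have hlogG2 : 31 / 32 * l - Real.log 2 ≤ Real.log (G : ℝ) := by
    have h1 : Real.log ((a i0 + b i0 : ℕ) : ℝ) ≤
        Real.log 2 + Real.log (yk k0 (a i0) (b i0) : ℝ) := by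
      have hy0' : (0 : ℝ) < (yk k0 (a i0) (b i0) : ℝ) := by exact_mod_cast Nat.pos_of_ne_zero hy0
      rw [← Real.log_mul (by norm_num) hy0'.ne']
      refine Real.log_le_log ?_ ?_
      · have := (hT i0).1
        exact_mod_cast (by omega : 0 < a i0 + b i0)
      · exact_mod_cast hy2
    have h2 := (hSc i0).1
    have h3 := hGlog i0
    linarith
  obtain ⟨he1, he5, _⟩ := hmemi i0
  have hpm : ∀ i, ¬ p i ∣ m := by
    intro i hd
    have : p i ∈ m.primeFactors := Nat.mem_primeFactors.2 ⟨(hpP i).1, hd, hmpos.ne'⟩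
    rw [hmpf] at this
    exact (hpP i).2.1 this
  have hPY : ∀ i, p i ≤ Y := fun i => by
    rw [hY]; exact Nat.le_floor (hpP i).2.2
  have hs : sk k0 = 1 ∨ sk k0 = -1 := by
    unfold sk
    by_cases h : k0 = 2
    · left; rw [if_pos h]
    · right; rw [if_neg h]
  have hle : G ≤ e * Y ^ n := by
    refine hPG2 m e n K G Y (sk k0) p x (fun i => zk k0 (a i) (b i)) hsq he1 hs
      (fun i => (hpP i).1) hpm hPY hinj ?_ ?_ ?_ ?_ ?_ ?_
    · intro i
      rw [hm]
      exact dvd_pow_K (hx0 i) (hxS i) hS ((hxle i).trans (hmemi i).2.2)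
    · intro i
      rw [hm]
      exact dvd_pow_K (hfacts i).2.2.2.2.1 (hfacts i).2.1 hS
        ((hfacts i).2.2.2.2.2.1.trans (hmemi i).2.2)
    · intro i
      exact Nat.Coprime.coprime_dvd_right (hGy i) (hxy i)
    · intro q hq hqG
      have : q ∈ (yk k0 (a i0) (b i0)).primeFactors :=
        Nat.mem_primeFactors.2 ⟨hq, hqG.trans (hGy i0), hy0⟩
      have h2 := (hfacts i0).1 this
      rw [← hmpf] at h2
      exact (Nat.mem_primeFactors.1 h2).2.1
    · intro i
      rw [hxeq i]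
      exact_mod_cast hGy i
    · rw [hmpf]
      refine cond hL h94 hlL hmpos hmL hn1 hn2 hK1 ?_
      rw [hm]
      calc 2 ^ S.card = ∏ _q ∈ S, 2 := by rw [Finset.prod_const]
        _ ≤ ∏ q ∈ S, q := Finset.prod_le_prod' (fun q hq => (hS q hq).two_le)
  have hYpos : 0 < Y := lt_of_lt_of_le (hpP i0).1.pos (hPY i0)
  have hYX : (Y : ℝ) ≤ X := by rw [hY]; exact Nat.floor_le hX0.le
  have hfinal : Real.log (G : ℝ) ≤ Real.log 5 + Real.log l + (20 * L * Real.log l + 1) * L := by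
    have h1 : (G : ℝ) ≤ (e : ℝ) * (Y : ℝ) ^ n := by exact_mod_cast hle
    have hGR : (0 : ℝ) < G := by exact_mod_cast hGpos
    have heR : (0 : ℝ) < e := by exact_mod_cast he1
    have hYR : (0 : ℝ) < Y := by exact_mod_cast hYpos
    have h2 := Real.log_le_log hGR h1
    rw [Real.log_mul heR.ne' (by positivity), Real.log_pow] at h2
    have h3 : Real.log (e : ℝ) ≤ Real.log 5 + Real.log l := by
      rw [← Real.log_mul (by norm_num) hl0.ne']
      exact Real.log_le_log heR he5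
    have h4 : Real.log (Y : ℝ) ≤ L := by
      rw [hLdef]; exact Real.log_le_log hYR hYX
    have h5 : (n : ℝ) * Real.log (Y : ℝ) ≤ (20 * L * Real.log l + 1) * L :=
      mul_le_mul hn2 h4 (Real.log_nonneg (by exact_mod_cast hYpos)) (by positivity)
    linarith
  linarith

end Pool.Agent.W584.RA
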