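import Pool.Agent.W223.RA.Stms

/-! PIG: few primes for every set, every scale and every exponent. -/

set_option autoImplicit false

namespace Pool.Agent.W584.RA

open Finset Pool.Agent.W223.RA

/-! ### arithmetic -/

lemma core {u y z p e : ℕ} {S : Finset ℕ} (hu : u ≠ 0) (hy : y ≠ 0) (hz : z ≠ 0)
    (huy : Nat.Coprime u y) (huz : Nat.Coprime u z) (hyz : Nat.Coprime y z) (hp : p.Prime)
    (hN : (u * y * z).primeFactors = insert p S) (he : (u * y * z).factorization p = e)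
    (hpu : p ∣ u) :
    y.primeFactors ⊆ S ∧ z.primeFactors ⊆ S ∧
      (∀ q : ℕ, q.Prime → q ∣ y → y.factorization q = (u * y * z).factorization q) ∧
      ∃ x : ℕ, x * p ^ e = u ∧ x ≠ 0 ∧ x.primeFactors ⊆ S ∧ Nat.Coprime x y := by
  have huy0 : u * y ≠ 0 := mul_ne_zero hu hy
  have hN0 : u * y * z ≠ 0 := mul_ne_zero huy0 hz
  have hfac : ∀ q, (u * y * z).factorization q = u.factorization q + y.factorization q +
      z.factorization q := by
    intro q
    rw [Nat.factorization_mul huy0 hz, Nat.factorization_mul hu hy]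
    rfl
  have hsub : ∀ q : ℕ, q.Prime → q ∣ u * y * z → q ≠ p → q ∈ S := by
    intro q hq hd hne
    have : q ∈ (u * y * z).primeFactors := Nat.mem_primeFactors.2 ⟨hq, hd, hN0⟩
    rw [hN] at this
    exact (Finset.mem_insert.1 this).resolve_left hne
  have hpy : ¬ p ∣ y := fun h => hp.one_lt.ne' (Nat.eq_one_of_dvd_coprimes huy hpu h)
  have hpz : ¬ p ∣ z := fun h => hp.one_lt.ne' (Nat.eq_one_of_dvd_coprimes huz hpu h)
  refine ⟨?_, ?_, ?_, ?_⟩
  · intro q hq
    obtain ⟨hq1, hq2, _⟩ := Nat.mem_primeFactors.1 hq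
    refine hsub q hq1 ((hq2.mul_left u).mul_right z) ?_
    rintro rfl
    exact hpy hq2
  · intro q hq
    obtain ⟨hq1, hq2, _⟩ := Nat.mem_primeFactors.1 hq
    refine hsub q hq1 (hq2.mul_left _) ?_
    rintro rfl
    exact hpz hq2
  · intro q hq hqy
    have h1 : u.factorization q = 0 := Nat.factorization_eq_zero_of_not_dvd
      (fun h => hq.one_lt.ne' (Nat.eq_one_of_dvd_coprimes huy h hqy))
    have h2 : z.factorization q = 0 := Nat.factorization_eq_zero_of_not_dvd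
      (fun h => hq.one_lt.ne' (Nat.eq_one_of_dvd_coprimes hyz hqy h))
    rw [hfac, h1, h2]
    omega
  · have h1 : u.factorization p = e := by
      have h2 : y.factorization p = 0 := Nat.factorization_eq_zero_of_not_dvd hpy
      have h3 : z.factorization p = 0 := Nat.factorization_eq_zero_of_not_dvd hpz
      have := hfac p
      omega
    refine ⟨u / p ^ u.factorization p, ?_, ?_, ?_, ?_⟩
    · rw [← h1]
      exact Nat.div_mul_cancel (Nat.ordProj_dvd u p)
    · exact (Nat.ordCompl_pos p hu).ne'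
    · intro q hq
      obtain ⟨hq1, hq2, _⟩ := Nat.mem_primeFactors.1 hq
      refine hsub q hq1 (((hq2.trans (Nat.ordCompl_dvd u p)).mul_right y).mul_right z) ?_
      rintro rfl
      exact Nat.not_dvd_ordCompl hp hu hq2
    · exact Nat.Coprime.coprime_dvd_left (Nat.ordCompl_dvd u p) huy

/-- the facts for one prime; `κ = 0, 1, 2` if `p ∣ a`, `p ∣ b`, `p ∣ a + b` -/
def yk (κ : Fin 3) (a b : ℕ) : ℕ := if κ = 2 then b else a + b

def zk (κ : Fin 3) (a b : ℕ) : ℕ := if κ = 0 then b else a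

def sk (κ : Fin 3) : ℤ := if κ = 2 then 1 else -1

def uk (κ : Fin 3) (a b : ℕ) : ℕ := if κ = 0 then a else if κ = 1 then b else a + b

lemma facts {a b p e : ℕ} {S : Finset ℕ} (hT : Trip a b) (hp : p.Prime)
    (hN : (N3 a b).primeFactors = insert p S) (he : (N3 a b).factorization p = e)
    (κ : Fin 3) (hκ : p ∣ uk κ a b) :
    (yk κ a b).primeFactors ⊆ S ∧ (zk κ a b).primeFactors ⊆ S ∧
      (∀ q : ℕ, q.Prime → q ∣ yk κ a b → (yk κ a b).factorization q = (N3 a b).factorization q) ∧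
      yk κ a b ≠ 0 ∧ zk κ a b ≠ 0 ∧ zk κ a b ≤ a + b ∧ a + b ≤ 2 * yk κ a b ∧
      ∃ x : ℕ, (p : ℤ) ^ e * (x : ℤ) - sk κ * (zk κ a b : ℤ) = (yk κ a b : ℤ) ∧ x ≠ 0 ∧
        x ≤ a + b ∧ x.primeFactors ⊆ S ∧ Nat.Coprime x (yk κ a b) := by
  obtain ⟨ha, hab, hc⟩ := hT
  have ha0 : a ≠ 0 := ha.ne'
  have hb0 : b ≠ 0 := by omega
  have hab0 : a + b ≠ 0 := by omega
  have c1 : Nat.Coprime a (a + b) := by simpa using hc
  have c2 : Nat.Coprime b (a + b) := by simpa using hc.symm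
  have hxle : ∀ x u : ℕ, x * p ^ e = u → u ≤ a + b → x ≤ a + b := by
    intro x u h1 h2
    have h3 : 1 ≤ p ^ e := Nat.one_le_pow _ _ hp.pos
    have h4 : x * 1 ≤ x * p ^ e := Nat.mul_le_mul_left _ h3
    omega
  fin_cases κ
  · have e1 : N3 a b = a * (a + b) * b := by unfold N3; ring
    rw [e1] at hN he ⊢
    have hκ' : p ∣ a := by simpa [uk] using hκ
    obtain ⟨h1, h2, h3, x, hx, hx0, hxS, hxy⟩ := core ha0 hab0 hb0 c1 hc c2.symm hp hN he hκ'
    have ey : yk ((fun i => i) ⟨0, by decide⟩) a b = a + b := by simp [yk]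
    have ez : zk ((fun i => i) ⟨0, by decide⟩) a b = b := by simp [zk]
    have es : sk ((fun i => i) ⟨0, by decide⟩) = -1 := by simp [sk]
    rw [ey, ez, es]
    refine ⟨h1, h2, h3, hab0, hb0, by omega, by omega, x, ?_, hx0, hxle x a hx (by omega), hxS, hxy⟩
    have hxZ : (x : ℤ) * (p : ℤ) ^ e = (a : ℤ) := by exact_mod_cast hx
    push_cast
    linarith
  · have e1 : N3 a b = b * (a + b) * a := by unfold N3; ring
    rw [e1] at hN he ⊢
    have hκ' : p ∣ b := by simpa [uk] using hκ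
    obtain ⟨h1, h2, h3, x, hx, hx0, hxS, hxy⟩ := core hb0 hab0 ha0 c2 hc.symm c1.symm hp hN he hκ'
    have ey : yk ((fun i => i) ⟨1, by decide⟩) a b = a + b := by simp [yk]
    have ez : zk ((fun i => i) ⟨1, by decide⟩) a b = a := by simp [zk]
    have es : sk ((fun i => i) ⟨1, by decide⟩) = -1 := by simp [sk]
    rw [ey, ez, es]
    refine ⟨h1, h2, h3, hab0, ha0, by omega, by omega, x, ?_, hx0, hxle x b hx (by omega), hxS, hxy⟩
    have hxZ : (x : ℤ) * (p : ℤ) ^ e = (b : ℤ) := by exact_mod_cast hx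
    push_cast
    linarith
  · have e1 : N3 a b = (a + b) * b * a := by unfold N3; ring
    rw [e1] at hN he ⊢
    have hκ' : p ∣ a + b := by simpa [uk] using hκ
    obtain ⟨h1, h2, h3, x, hx, hx0, hxS, hxy⟩ := core hab0 hb0 ha0 c2.symm c1.symm hc.symm hp hN he hκ'
    have ey : yk ((fun i => i) ⟨2, by decide⟩) a b = b := by simp [yk]
    have ez : zk ((fun i => i) ⟨2, by decide⟩) a b = a := by simp [zk]
    have es : sk ((fun i => i) ⟨2, by decide⟩) = 1 := by simp [sk]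
    rw [ey, ez, es]
    refine ⟨h1, h2, h3, hb0, ha0, by omega, by omega, x, ?_, hx0, hxle x _ hx le_rfl, hxS, hxy⟩
    have hxZ : (x : ℤ) * (p : ℤ) ^ e = (a : ℤ) + (b : ℤ) := by exact_mod_cast hx
    linarith

lemma eq_prod {S : Finset ℕ} {y : ℕ} (hy : y ≠ 0) (hS : y.primeFactors ⊆ S) :
    y = ∏ q ∈ S, q ^ y.factorization q := by
  conv_lhs => rw [← Nat.prod_factorization_pow_eq_self hy]
  refine Finset.prod_subset hS (fun q _ hq => ?_)
  have h0 : y.factorization q = 0 := by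
    rw [← Finsupp.notMem_support_iff, Nat.support_factorization]
    exact hq
  rw [h0]
  exact pow_zero q

lemma dvd_pow_K {S : Finset ℕ} {x K : ℕ} (hx : x ≠ 0) (hS : x.primeFactors ⊆ S)
    (hSp : ∀ q ∈ S, q.Prime) (hxK : x ≤ 2 ^ K) : x ∣ (∏ q ∈ S, q) ^ K := by
  have h1 : (∏ q ∈ S, q) ^ K = ∏ q ∈ S, q ^ K := by rw [Finset.prod_pow]
  rw [h1]
  conv_lhs => rw [eq_prod hx hS]
  refine Finset.prod_dvd_prod_of_dvd _ _ (fun q hq => ?_)
  refine pow_dvd_pow q ?_
  have h2 : q ^ x.factorization q ≤ x := Nat.ordProj_le q hx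
  have h3 : 2 ^ x.factorization q ≤ q ^ x.factorization q :=
    Nat.pow_le_pow_left (hSp q hq).two_le _
  exact (Nat.pow_le_pow_iff_right (by norm_num : 1 < 2)).1 (h3.trans (h2.trans hxK))

/-! ### analysis -/

lemma ana {L l : ℝ} (hL : Real.exp 400 ≤ L) (h94 : L ^ ((9 : ℝ) / 4) ≤ l) :
    900 ≤ Real.log l ∧ Real.log L ≤ 4 / 9 * Real.log l ∧ 1000 ≤ L ∧ 1000 ≤ l ∧
      Real.log 5 + Real.log l + (20 * L * Real.log l + 1) * L < 31 / 32 * l - Real.log 2 := by
  have hL0 : 0 < L := lt_of_lt_of_le (Real.exp_pos _) hL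
  have hlogL : 400 ≤ Real.log L := by
    rw [Real.le_log_iff_exp_le hL0]; exact hL
  have hl0 : 0 < l := lt_of_lt_of_le (Real.rpow_pos_of_pos hL0 _) h94
  have h1 : (9 / 4 : ℝ) * Real.log L ≤ Real.log l := by
    rw [← Real.log_rpow hL0]
    exact Real.log_le_log (Real.rpow_pos_of_pos hL0 _) h94
  have hlam : 900 ≤ Real.log l := by linarith
  have h2 : Real.log L ≤ 4 / 9 * Real.log l := by linarith
  obtain ⟨lam, hlamdef⟩ : ∃ lam, lam = Real.log l := ⟨_, rfl⟩
  rw [← hlamdef] at hlam h2 h1 ⊢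
  obtain ⟨v, hv⟩ : ∃ v, v = Real.exp (lam / 36) := ⟨_, rfl⟩
  have hv1 : lam / 36 + 1 ≤ v := by rw [hv]; exact Real.add_one_le_exp _
  have hv0 : 0 < v := by rw [hv]; exact Real.exp_pos _
  have hv25 : 25 ≤ v := by linarith
  obtain ⟨w, hw⟩ : ∃ w, w = v ^ 4 := ⟨_, rfl⟩
  have hw9 : l = w ^ 9 := by
    rw [hw, hv, ← pow_mul, ← Real.exp_nat_mul, hlamdef]
    have : ((4 * 9 : ℕ) : ℝ) * (Real.log l / 36) = Real.log l := by push_cast; ring
    rw [this, Real.exp_log hl0]
  have hLw : L ≤ w ^ 4 := by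
    have h3 : L = Real.exp (Real.log L) := (Real.exp_log hL0).symm
    have h4 : w ^ 4 = Real.exp (4 / 9 * lam) := by
      rw [hw, hv, ← pow_mul, ← Real.exp_nat_mul]
      congr 1
      push_cast; ring
    rw [h3, h4]
    exact Real.exp_le_exp.2 h2
  have hwlam : 434 * lam ≤ w := by
    have h5 : (25 : ℝ) ^ 3 ≤ v ^ 3 := pow_le_pow_left₀ (by norm_num) hv25 3
    have h6 : w = v ^ 3 * v := by rw [hw]; ring
    have h7 : lam / 36 ≤ v := by linarith
    have h8 : (25 : ℝ) ^ 3 * (lam / 36) ≤ v ^ 3 * v :=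
      mul_le_mul h5 h7 (by positivity) (by positivity)
    rw [h6]
    refine le_trans ?_ h8
    nlinarith
  have hw1000 : 1000 ≤ w := by linarith
  have hw0 : 0 < w := by linarith
  have hL1000 : (1000 : ℝ) ≤ L := by
    refine le_trans ?_ hL
    have := Real.add_one_le_exp (200 : ℝ)
    have h9 : Real.exp 400 = Real.exp 200 * Real.exp 200 := by rw [← Real.exp_add]; norm_num
    rw [h9]
    nlinarith
  have hl1000 : 1000 ≤ l := by
    rw [hw9]
    calc (1000 : ℝ) ≤ w := hw1000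
      _ = w ^ 1 := (pow_one _).symm
      _ ≤ w ^ 9 := pow_le_pow_right₀ (by linarith) (by norm_num)
  refine ⟨hlam, h2, hL1000, hl1000, ?_⟩
  have p1 : w ^ 4 * 1000 ≤ w ^ 9 := by
    have : w ^ 9 = w ^ 4 * w ^ 5 := by ring
    rw [this]
    refine mul_le_mul_of_nonneg_left ?_ (by positivity)
    calc (1000 : ℝ) ≤ w ^ 1 := by rw [pow_one]; exact hw1000
      _ ≤ w ^ 5 := pow_le_pow_right₀ (by linarith) (by norm_num)
  have p2 : w * 1000 ≤ w ^ 9 := by
    have : w ^ 9 = w * w ^ 8 := by ring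
    rw [this]
    refine mul_le_mul_of_nonneg_left ?_ (by positivity)
    calc (1000 : ℝ) ≤ w ^ 1 := by rw [pow_one]; exact hw1000
      _ ≤ w ^ 8 := pow_le_pow_right₀ (by linarith) (by norm_num)
  have p3 : 20 * L * lam * L ≤ w ^ 9 / 20 := by
    have hLL : L * L ≤ w ^ 4 * w ^ 4 := mul_le_mul hLw hLw hL0.le (by positivity)
    have : 20 * L * lam * L = 20 * lam * (L * L) := by ring
    rw [this]
    have h10 : 20 * lam ≤ w / 20 := by linarith
    calc 20 * lam * (L * L) ≤ (w / 20) * (w ^ 4 * w ^ 4) :=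
          mul_le_mul h10 hLL (by positivity) (by positivity)
      _ = w ^ 9 / 20 := by ring
  have p4 : Real.log 5 ≤ 4 := by
    have := Real.log_le_sub_one_of_pos (show (0 : ℝ) < 5 by norm_num)
    linarith
  have p5 : Real.log 2 ≤ 1 := by
    have := Real.log_le_sub_one_of_pos (show (0 : ℝ) < 2 by norm_num)
    linarith
  have p6 : (1000 : ℝ) * 1000 ≤ w * 1000 := by linarith
  rw [hw9]
  have p7 : (20 * L * lam + 1) * L = 20 * L * lam * L + L := by ring
  rw [p7]
  linarith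

/-- the counting condition -/
lemma cond {L l : ℝ} {m n K om : ℕ} (hL : Real.exp 400 ≤ L) (h94 : L ^ ((9 : ℝ) / 4) ≤ l)
    (hlL : Real.log l ≤ L) (hm : 1 ≤ m) (hmL : Real.log m ≤ L) (hn1 : 20 * L * Real.log l ≤ n)
    (hn2 : (n : ℝ) ≤ 20 * L * Real.log l + 1) (hK : (K : ℝ) ≤ 2 * l) (hom : 2 ^ om ≤ m) :
    8 * m * (n * K + 1) ^ (2 * om) < 2 ^ n := by
  obtain ⟨a1, a2, a3, a4, _⟩ := ana hL h94
  obtain ⟨lam, hlamdef⟩ : ∃ lam, lam = Real.log l := ⟨_, rfl⟩
  rw [← hlamdef] at a1 a2 hn1 hn2 hlL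
  have hL0 : 0 < L := by linarith
  have hl0 : 0 < l := by linarith
  have hm0 : (0 : ℝ) < m := by exact_mod_cast hm
  have l2a := Real.log_two_gt_d9
  have l2b := Real.log_two_lt_d9
  have hnK : (n : ℝ) * K + 1 ≤ 64 * (L ^ 2 * l) := by
    have h1 : (n : ℝ) ≤ 21 * L ^ 2 := by nlinarith
    have h2 : (n : ℝ) * K ≤ (21 * L ^ 2) * (2 * l) :=
      mul_le_mul h1 hK (by positivity) (by positivity)
    have h3 : 1 ≤ L ^ 2 * l := by nlinarith [mul_pos hL0 hl0]
    nlinarith
  have hlog : Real.log ((n : ℝ) * K + 1) ≤ 2 * lam := by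
    have h1 : Real.log ((n : ℝ) * K + 1) ≤ Real.log (64 * (L ^ 2 * l)) :=
      Real.log_le_log (by positivity) hnK
    have h2 : Real.log (64 * (L ^ 2 * l)) = Real.log 64 + (2 * Real.log L + lam) := by
      rw [Real.log_mul (by norm_num) (by positivity), Real.log_mul (by positivity) (by positivity),
        Real.log_pow, hlamdef]
      push_cast; ring
    have h3 : Real.log 64 = 6 * Real.log 2 := by
      rw [show (64 : ℝ) = 2 ^ 6 by norm_num, Real.log_pow]; norm_num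
    rw [h2, h3] at h1
    linarith
  have homL : (om : ℝ) * Real.log 2 ≤ L := by
    have h1 : Real.log ((2 : ℝ) ^ om) ≤ Real.log m :=
      Real.log_le_log (by positivity) (by exact_mod_cast hom)
    rw [Real.log_pow] at h1
    linarith
  have hom2 : (om : ℝ) ≤ 3 / 2 * L := by nlinarith
  have hR : (8 : ℝ) * m * ((n : ℝ) * K + 1) ^ (2 * om) < 2 ^ n := by
    have hpos : (0 : ℝ) < (n : ℝ) * K + 1 := by positivity
    rw [← Real.log_lt_log_iff (by positivity) (by positivity), Real.log_mul (by positivity)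
      (by positivity), Real.log_mul (by norm_num) (by positivity), Real.log_pow, Real.log_pow]
    have h3 : Real.log 8 = 3 * Real.log 2 := by
      rw [show (8 : ℝ) = 2 ^ 3 by norm_num, Real.log_pow]; norm_num
    rw [h3]
    have h4 : ((2 * om : ℕ) : ℝ) * Real.log ((n : ℝ) * K + 1) ≤ 6 * (L * lam) := by
      push_cast
      calc (2 * (om : ℝ)) * Real.log ((n : ℝ) * K + 1) ≤ (2 * (3 / 2 * L)) * (2 * lam) := by
            refine mul_le_mul (by linarith) hlog (Real.log_nonneg ?_) (by positivity)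
            have : (0 : ℝ) ≤ (n : ℝ) * K := by positivity
            linarith
        _ = 6 * (L * lam) := by ring
    have h5 : 12 * (L * lam) ≤ (n : ℝ) * Real.log 2 := by
      have h6 : 20 * L * lam * Real.log 2 ≤ (n : ℝ) * Real.log 2 :=
        mul_le_mul_of_nonneg_right hn1 (by linarith)
      have h7 : 12 * (L * lam) ≤ 20 * L * lam * Real.log 2 := by
        have : 0 < L * lam := by positivity
        nlinarith
      linarith
    have h8 : L * 900 ≤ L * lam := mul_le_mul_of_nonneg_left a1 hL0.le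
    linarith
  exact_mod_cast hR

lemma near_dvd {S : Finset ℕ} {l : ℝ} {a₁ b₁ a₂ b₂ q : ℕ} (h : Near S l a₁ b₁ a₂ b₂)
    (hq : q ∈ S) (κ : Fin 3) : q ∣ yk κ a₁ b₁ ↔ q ∣ yk κ a₂ b₂ := by
  obtain ⟨_, h2, h3, _⟩ := h q hq
  unfold yk
  by_cases hk : κ = 2
  · rw [if_pos hk, if_pos hk]; exact h2
  · rw [if_neg hk, if_neg hk]; exact h3

lemma log_eq_sum {S : Finset ℕ} {y : ℕ} (hy : y ≠ 0) (hS : y.primeFactors ⊆ S)
    (hSp : ∀ q ∈ S, q.Prime) :
    Real.log (y : ℝ) = ∑ q ∈ S, (y.factorization q : ℝ) * Real.log q := by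
  conv_lhs => rw [eq_prod hy hS]
  push_cast
  rw [Real.log_prod]
  · refine Finset.sum_congr rfl (fun q _ => ?_)
    rw [Real.log_pow]
  · intro q hq
    have : (0 : ℝ) < q := by exact_mod_cast (hSp q hq).pos
    positivity

end Pool.Agent.W584.RA
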